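import Pool.Agent.helper49.Slope.Final
import Pool.Agent.helper49.Slope.D7

/-!
Slope of `k`-fold hyperplane covers of triangular grids, all dimensions.

The definitions (`grid`, `IsHyperplane`, `IsCover`, `f`, `SlopeIs`) are in
`Pool.Agent.helper49.Slope.Defs`.

Lower bound: with `N = d + 1` we construct a random vector `y ∈ [-1,1]^N` with coordinate sum `0`
such that every integer linear form with non-constant coefficients has density at most `1/2`.
Discretised, it is a measure on the grid for which every hyperplane has measure at most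
`(N/2 + ε)/n`; weak duality gives `f(n,d,k) ≥ (2/(d+1) - ε) k n`. The upper bound is an explicit
cover by the hyperplanes `x_i = j` and `x_1 + ... + x_d = j`.
-/

open Pool.Agent.helper49.Slope

namespace Pool.Agent.Results.MP_aedd95_co.SlopeLaw

/-- For all `d ≥ 1` and all `k`: the slope, if it exists, lies between `2k/(d+1)` and
`2k/(d+1) + 2`; and without assuming that it exists, `f(n,d,k) ≥ (2k/(d+1) - ε) n` for all large
`n`, and `f(n,d,k) ≤ (2k/(d+1) + 2) n + B` for all `n`. -/
theorem result (d k : ℕ) (hd : 1 ≤ d) :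
    (∀ C : ℝ, SlopeIs d k C →
      2 * (k : ℝ) / (d + 1) ≤ C ∧ C ≤ 2 * (k : ℝ) / (d + 1) + 2) ∧
    (∀ ε : ℝ, 0 < ε → ∃ n₀ : ℕ, ∀ n : ℕ, n₀ ≤ n →
      (2 * (k : ℝ) / (d + 1) - ε) * n ≤ (f n d k : ℝ)) ∧
    (∃ B : ℝ, ∀ n : ℕ, 1 ≤ n → (f n d k : ℝ) ≤ (2 * (k : ℝ) / (d + 1) + 2) * n + B) :=
  have h := bounds_of_law d hd (law_all law_seven (d + 1) (by omega)) k
  ⟨fun C hC => slope_of_bounds d k h C hC, h⟩

end Pool.Agent.Results.MP_aedd95_co.SlopeLaw
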